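import Pool.Agent.Q155.BZ.Stm

/-!
Project BZ (helper155), job BZ-1: the general continuation lemma.
-/

set_option autoImplicit false

open Complex Set Filter Asymptotics MeasureTheory Topology

namespace Pool.Agent.Q95.BZ

open Pool.Agent.Q155.BZ

/-- the remainder -/
noncomputable def R (g : ℝ → ℂ) (c : ℕ → ℂ) (k : ℕ) (x : ℝ) : ℂ :=
  g x - ∑ j ∈ Finset.range k, c j * (((x : ℂ) ^ j) * (Real.exp (-x) : ℂ))

/-- the partial continuation -/
noncomputable def P (g : ℝ → ℂ) (c : ℕ → ℂ) (k : ℕ) (s : ℂ) : ℂ :=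
  ∑ j ∈ Finset.range k, c j * (∏ i ∈ Finset.range j, (s + i)) + mellin (R g c k) s * (Gamma s)⁻¹

lemma inv_gamma (s : ℂ) (k : ℕ) :
    (Gamma s)⁻¹ = (∏ j ∈ Finset.range k, (s + j)) * (Gamma (s + k))⁻¹ := by
  induction k with
  | zero => simp
  | succ k ih =>
    rw [Finset.prod_range_succ, ih, one_div_Gamma_eq_self_mul_one_div_Gamma_add_one (s + k)]
    push_cast
    ring_nf

lemma gamma_div (s : ℂ) (k : ℕ) (h : 0 < (s + k).re) :
    Gamma (s + k) * (Gamma s)⁻¹ = ∏ j ∈ Finset.range k, (s + j) := by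
  have h1 := Complex.Gamma_ne_zero_of_re_pos h
  rw [inv_gamma s k, mul_comm, mul_assoc, inv_mul_cancel₀ h1, mul_one]

lemma conv_exp (s : ℂ) (k : ℕ) (h : 0 < (s + k).re) :
    MellinConvergent (fun x : ℝ => ((x : ℂ) ^ k) * (Real.exp (-x) : ℂ)) s ∧
    mellin (fun x : ℝ => ((x : ℂ) ^ k) * (Real.exp (-x) : ℂ)) s = Gamma (s + k) := by
  have e : (fun x : ℝ => ((x : ℂ) ^ k) * (Real.exp (-x) : ℂ))
      = fun x : ℝ => (x : ℂ) ^ (k : ℂ) • (Real.exp (-x) : ℂ) := by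
    funext x
    rw [Complex.cpow_natCast, smul_eq_mul]
  have h1 : MellinConvergent (fun x : ℝ => (Real.exp (-x) : ℂ)) (s + k) := by
    have h2 := GammaIntegral_convergent h
    refine h2.congr_fun (fun x _ => ?_) measurableSet_Ioi
    simp only [smul_eq_mul]
    ring
  refine ⟨?_, ?_⟩
  · rw [e, MellinConvergent.cpow_smul]
    exact h1
  · rw [e, mellin_cpow_smul, Complex.Gamma_eq_integral h, GammaIntegral_eq_mellin]

lemma R_cont {g : ℝ → ℂ} (hg : ContinuousOn g (Ioi 0)) (c : ℕ → ℂ) (k : ℕ) :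
    LocallyIntegrableOn (R g c k) (Ioi 0) := by
  have h1 : ContinuousOn (R g c k) (Ioi 0) := by
    unfold R
    refine hg.sub ?_
    refine Continuous.continuousOn ?_
    fun_prop
  exact h1.locallyIntegrableOn measurableSet_Ioi

lemma R_top {g : ℝ → ℂ} {c₀ : ℝ} (h : g =O[atTop] fun x => Real.exp (-(c₀ * x))) (c : ℕ → ℂ)
    (k : ℕ) : R g c k =O[atTop] fun x => Real.exp (-(min c₀ (1 / 2)) * x) := by
  unfold R
  have h0 : ∀ a : ℝ, min c₀ (1 / 2) ≤ a → (fun x : ℝ => Real.exp (-(a * x))) =O[atTop]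
      fun x => Real.exp (-(min c₀ (1 / 2)) * x) := by
    intro a ha
    apply IsBigO.of_bound 1
    filter_upwards [eventually_ge_atTop (0 : ℝ)] with x hx
    rw [one_mul, Real.norm_of_nonneg (Real.exp_pos _).le, Real.norm_of_nonneg (Real.exp_pos _).le,
      Real.exp_le_exp]
    have := mul_le_mul_of_nonneg_right ha hx
    linarith
  refine (h.trans (h0 c₀ (min_le_left _ _))).sub ?_
  refine IsBigO.fun_sum (fun j _ => ?_)
  refine IsBigO.const_mul_left ?_ _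
  refine IsBigO.trans ?_ (h0 (1 / 2) (min_le_right _ _))
  have h1 := (isLittleO_pow_exp_pos_mul_atTop j (b := 1 / 2) (by norm_num)).isBigO
  have h2 := h1.mul (isBigO_refl (fun x : ℝ => Real.exp (-x)) atTop)
  have e : (fun x : ℝ => Real.exp (1 / 2 * x) * Real.exp (-x))
      = fun x : ℝ => Real.exp (-(1 / 2 * x)) := by
    funext x
    rw [← Real.exp_add]
    congr 1
    ring
  rw [e] at h2
  have e2 : (fun x : ℝ => ((x : ℂ) ^ j) * (Real.exp (-x) : ℂ))
      = fun x : ℝ => ((x ^ j * Real.exp (-x) : ℝ) : ℂ) := by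
    funext x
    push_cast
    rfl
  rw [e2]
  refine IsBigO.trans ?_ h2
  apply IsBigO.of_bound 1
  filter_upwards with x
  rw [Complex.norm_real, one_mul]

lemma R_bot {g : ℝ → ℂ} {G : ℂ → ℂ} (p : FormalMultilinearSeries ℂ ℂ ℂ)
    (hp : HasFPowerSeriesAt (fun z => Complex.exp z * G z) p 0)
    (hg : ∀ᶠ x : ℝ in 𝓝[>] 0, g x = G (x : ℂ)) (k : ℕ) :
    R g (fun j => p.coeff j) k =O[𝓝[>] 0] fun x : ℝ => x ^ (-(-(k : ℝ))) := by
  have h1 := hp.isBigO_sub_partialSum_pow k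
  have h2 : Tendsto (fun x : ℝ => (x : ℂ)) (𝓝[>] 0) (𝓝 0) := by
    have h3 : Tendsto (fun x : ℝ => (x : ℂ)) (𝓝 0) (𝓝 ((0 : ℝ) : ℂ)) :=
      Complex.continuous_ofReal.tendsto 0
    rw [Complex.ofReal_zero] at h3
    exact h3.mono_left nhdsWithin_le_nhds
  have h3 := h1.comp_tendsto h2
  have h4 : (fun x : ℝ => (Real.exp (-x) : ℂ)) =O[𝓝[>] 0] fun _ : ℝ => (1 : ℝ) := by
    apply IsBigO.of_bound 1
    filter_upwards [self_mem_nhdsWithin] with x hx
    rw [Complex.norm_real, Real.norm_of_nonneg (Real.exp_pos _).le, norm_one, one_mul,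
      Real.exp_le_one_iff]
    have : (0 : ℝ) < x := hx
    linarith
  have h5 := h4.mul h3
  refine IsBigO.trans (IsBigO.of_bound 1 ?_) (h5.trans (IsBigO.of_bound 1 ?_))
  · filter_upwards [hg] with x hx
    rw [one_mul]
    apply le_of_eq
    congr 1
    simp only [R, Function.comp_apply, zero_add, FormalMultilinearSeries.partialSum]
    rw [hx, mul_sub, ← mul_assoc, Finset.mul_sum]
    congr 1
    · rw [← Complex.ofReal_exp, ← Complex.ofReal_mul, ← Real.exp_add, neg_add_cancel, Real.exp_zero,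
        Complex.ofReal_one, one_mul]
    · apply Finset.sum_congr rfl
      intro j _
      rw [FormalMultilinearSeries.apply_eq_pow_smul_coeff, smul_eq_mul]
      ring
  · filter_upwards [self_mem_nhdsWithin] with x hx
    have hx' : (0 : ℝ) < x := hx
    rw [neg_neg, Real.rpow_natCast, one_mul]
    simp only [Function.comp_apply, one_mul, norm_pow, norm_norm, Complex.norm_real]
    exact le_refl _

lemma R_conv {g : ℝ → ℂ} {G : ℂ → ℂ} {c₀ : ℝ} (hc : 0 < c₀) (hg0 : ContinuousOn g (Ioi 0))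
    (p : FormalMultilinearSeries ℂ ℂ ℂ)
    (hp : HasFPowerSeriesAt (fun z => Complex.exp z * G z) p 0)
    (hg : ∀ᶠ x : ℝ in 𝓝[>] 0, g x = G (x : ℂ))
    (hi : g =O[atTop] fun x => Real.exp (-(c₀ * x))) (k : ℕ) {s : ℂ} (hs : -(k : ℝ) < s.re) :
    MellinConvergent (R g (fun j => p.coeff j) k) s ∧
    DifferentiableAt ℂ (mellin (R g (fun j => p.coeff j) k)) s :=
  ⟨mellinConvergent_of_isBigO_rpow_exp (lt_min hc (by norm_num)) (R_cont hg0 _ k) (R_top hi _ k)
    (R_bot p hp hg k) hs,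
   mellin_differentiableAt_of_isBigO_rpow_exp (lt_min hc (by norm_num)) (R_cont hg0 _ k)
    (R_top hi _ k) (R_bot p hp hg k) hs⟩

lemma P_succ {g : ℝ → ℂ} {G : ℂ → ℂ} {c₀ : ℝ} (hc : 0 < c₀) (hg0 : ContinuousOn g (Ioi 0))
    (p : FormalMultilinearSeries ℂ ℂ ℂ)
    (hp : HasFPowerSeriesAt (fun z => Complex.exp z * G z) p 0)
    (hg : ∀ᶠ x : ℝ in 𝓝[>] 0, g x = G (x : ℂ))
    (hi : g =O[atTop] fun x => Real.exp (-(c₀ * x))) (k : ℕ) {s : ℂ} (hs : -(k : ℝ) < s.re) :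
    P g (fun j => p.coeff j) (k + 1) s = P g (fun j => p.coeff j) k s := by
  have hs' : 0 < (s + k).re := by
    simp only [Complex.add_re, Complex.natCast_re]
    linarith
  have h1 := (R_conv hc hg0 p hp hg hi k hs).1
  obtain ⟨h2, h3⟩ := conv_exp s k hs'
  have h4 := hasMellin_const_smul h2 (p.coeff k)
  have h5 := hasMellin_sub h1 h4.1
  have e : (fun t : ℝ => R g (fun j => p.coeff j) k t
      - p.coeff k • (((t : ℂ) ^ k) * (Real.exp (-t) : ℂ))) = R g (fun j => p.coeff j) (k + 1) := by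
    funext t
    simp only [R, Finset.sum_range_succ, smul_eq_mul]
    ring
  rw [e] at h5
  unfold P
  rw [h5.2, h4.2, h3, Finset.sum_range_succ, sub_mul, smul_eq_mul, mul_assoc (p.coeff k),
    gamma_div s k hs']
  ring

lemma P_le {g : ℝ → ℂ} {G : ℂ → ℂ} {c₀ : ℝ} (hc : 0 < c₀) (hg0 : ContinuousOn g (Ioi 0))
    (p : FormalMultilinearSeries ℂ ℂ ℂ)
    (hp : HasFPowerSeriesAt (fun z => Complex.exp z * G z) p 0)
    (hg : ∀ᶠ x : ℝ in 𝓝[>] 0, g x = G (x : ℂ))
    (hi : g =O[atTop] fun x => Real.exp (-(c₀ * x))) (k l : ℕ) {s : ℂ} (hs : -(k : ℝ) < s.re) :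
    P g (fun j => p.coeff j) (k + l) s = P g (fun j => p.coeff j) k s := by
  induction l with
  | zero => rfl
  | succ l ih =>
    rw [← ih, ← add_assoc, P_succ hc hg0 p hp hg hi (k + l)]
    push_cast
    have : (0 : ℝ) ≤ l := Nat.cast_nonneg l
    linarith

lemma P_eq {g : ℝ → ℂ} {G : ℂ → ℂ} {c₀ : ℝ} (hc : 0 < c₀) (hg0 : ContinuousOn g (Ioi 0))
    (p : FormalMultilinearSeries ℂ ℂ ℂ)
    (hp : HasFPowerSeriesAt (fun z => Complex.exp z * G z) p 0)
    (hg : ∀ᶠ x : ℝ in 𝓝[>] 0, g x = G (x : ℂ))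
    (hi : g =O[atTop] fun x => Real.exp (-(c₀ * x))) (k l : ℕ) {s : ℂ} (hs : -(k : ℝ) < s.re)
    (hs' : -(l : ℝ) < s.re) :
    P g (fun j => p.coeff j) l s = P g (fun j => p.coeff j) k s := by
  rcases le_total k l with h | h
  · obtain ⟨m, rfl⟩ := Nat.exists_eq_add_of_le h
    exact P_le hc hg0 p hp hg hi k m hs
  · obtain ⟨m, rfl⟩ := Nat.exists_eq_add_of_le h
    exact (P_le hc hg0 p hp hg hi l m hs').symm

lemma P_diff {g : ℝ → ℂ} {G : ℂ → ℂ} {c₀ : ℝ} (hc : 0 < c₀) (hg0 : ContinuousOn g (Ioi 0))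
    (p : FormalMultilinearSeries ℂ ℂ ℂ)
    (hp : HasFPowerSeriesAt (fun z => Complex.exp z * G z) p 0)
    (hg : ∀ᶠ x : ℝ in 𝓝[>] 0, g x = G (x : ℂ))
    (hi : g =O[atTop] fun x => Real.exp (-(c₀ * x))) (k : ℕ) {s : ℂ} (hs : -(k : ℝ) < s.re) :
    DifferentiableAt ℂ (P g (fun j => p.coeff j) k) s := by
  unfold P
  have h1 : DifferentiableAt ℂ
      (fun s : ℂ => ∑ j ∈ Finset.range k, p.coeff j * (∏ i ∈ Finset.range j, (s + i))) s := by
    fun_prop
  exact h1.add ((R_conv hc hg0 p hp hg hi k hs).2.mul differentiable_one_div_Gamma.differentiableAt)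

/-- BZ-1. -/
theorem cont : S_CONT := by
  intro g G c₀ hc hg0 hG hg hi
  obtain ⟨p, hp⟩ : AnalyticAt ℂ (fun z => Complex.exp z * G z) 0 := by
    exact (Complex.differentiable_exp.analyticAt 0).mul hG
  have key : ∀ s : ℂ, -((⌈-s.re⌉₊ + 1 : ℕ) : ℝ) < s.re := by
    intro s
    have := Nat.le_ceil (-s.re)
    push_cast
    linarith
  refine ⟨fun s => P g (fun j => p.coeff j) (⌈-s.re⌉₊ + 1) s, ?_, ?_⟩
  · intro s
    have h1 := P_diff hc hg0 p hp hg hi (⌈-s.re⌉₊ + 1) (key s)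
    refine h1.congr_of_eventuallyEq ?_
    have h2 : {z : ℂ | -((⌈-s.re⌉₊ + 1 : ℕ) : ℝ) < z.re} ∈ 𝓝 s :=
      (isOpen_lt continuous_const Complex.continuous_re).mem_nhds (key s)
    filter_upwards [h2] with z hz
    exact P_eq hc hg0 p hp hg hi _ _ hz (key z)
  · intro s hs
    have h1 : P g (fun j => p.coeff j) (⌈-s.re⌉₊ + 1) s = P g (fun j => p.coeff j) 0 s := by
      apply P_eq hc hg0 p hp hg hi _ _ _ (key s)
      simpa using hs
    show Gamma s * P g (fun j => p.coeff j) (⌈-s.re⌉₊ + 1) s = mellin g s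
    rw [h1]
    have e : R g (fun j => p.coeff j) 0 = g := by
      funext x
      simp [R]
    unfold P
    rw [e, Finset.range_zero, Finset.sum_empty, zero_add, mul_comm, mul_assoc,
      inv_mul_cancel₀ (Complex.Gamma_ne_zero_of_re_pos hs), mul_one]

end Pool.Agent.Q95.BZ
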